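import Pool.Agent.H83.X.T2

/-!
Theorem X, row ERR: the part orthogonal to finitely many eigenfunctions does not contribute
along the primes.
-/

set_option autoImplicit false

open MeasureTheory ProbabilityTheory Filter Topology Finset

namespace Pool.Agent.H66.X

open Pool.Agent.H83.X
open Pool.Agent.H24.T2 (Pset)
open Pool.Agent.H24.AG (ee)
open Pool.Agent.H67.AG (avgP)

theorem avgP_mono {m : ℕ} {F G : ℕ → ℝ} (h : ∀ p ∈ Pset 2 m, F p ≤ G p) :
    avgP 2 m F ≤ avgP 2 m G := by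
  unfold avgP
  exact div_le_div_of_nonneg_right (Finset.sum_le_sum h) (Nat.cast_nonneg _)

theorem avgP_add (m : ℕ) (F G : ℕ → ℝ) :
    avgP 2 m (fun p => F p + G p) = avgP 2 m F + avgP 2 m G := by
  unfold avgP
  rw [Finset.sum_add_distrib, add_div]

theorem avgP_sum (m q : ℕ) (F : ℕ → ℕ → ℝ) :
    avgP 2 m (fun p => ∑ j ∈ range q, F j p) = ∑ j ∈ range q, avgP 2 m (F j) := by
  unfold avgP
  rw [Finset.sum_comm, Finset.sum_div]

theorem avgP_nn {m : ℕ} {F : ℕ → ℝ} (h : ∀ p, 0 ≤ F p) : 0 ≤ avgP 2 m F := by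
  unfold avgP
  exact div_nonneg (Finset.sum_nonneg fun p _ => h p) (Nat.cast_nonneg _)

theorem ee_conj (x : ℝ) : ee (-x) = (starRingEnd ℂ) (ee x) := by
  unfold ee
  rw [← Complex.exp_conj]
  congr 1
  simp only [map_mul, Complex.conj_I, Complex.conj_ofReal, map_ofNat]
  push_cast
  ring

theorem norm_int_neg (σ : Measure (Set.Ico (0 : ℝ) 1)) (y : ℝ) :
    ‖∫ x, ee ((x : ℝ) * (-y)) ∂σ‖ = ‖∫ x, ee ((x : ℝ) * y) ∂σ‖ := by
  have h1 : ∫ x, ee ((x : ℝ) * (-y)) ∂σ = (starRingEnd ℂ) (∫ x, ee ((x : ℝ) * y) ∂σ) := by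
    rw [← integral_conj]
    refine integral_congr_ae (Eventually.of_forall fun x => ?_)
    change ee ((x : ℝ) * (-y)) = (starRingEnd ℂ) (ee ((x : ℝ) * y))
    rw [mul_neg, ee_conj]
  rw [h1, RCLike.norm_conj]

section

variable {Ω : Type} [MeasurableSpace Ω]

theorem int_bdd {P : Measure Ω} [IsProbabilityMeasure P] {f : Ω → ℝ} (hf : Measurable f) {C : ℝ}
    (hC : ∀ ω, |f ω| ≤ C) : Integrable f P :=
  Integrable.of_bound hf.aestronglyMeasurable C (Eventually.of_forall fun ω => by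
    rw [Real.norm_eq_abs]
    exact hC ω)

/-- correlations of the translates -/
theorem cor_shift {P : Measure Ω} {R : Ω → Ω} (hR : MeasurePreserving R P P) {b : Ω → ℝ}
    (hb : Measurable b) (k l : ℕ) :
    ∫ ω, b (R^[k] ω) * b (R^[k + l] ω) ∂P = ∫ ω, b ω * b (R^[l] ω) ∂P := by
  have h1 := hR.iterate k
  have hm : Measurable fun ω => b ω * b (R^[l] ω) :=
    hb.mul (hb.comp (hR.iterate l).measurable)
  have h2 := integral_map (μ := P) (φ := R^[k]) (f := fun ω => b ω * b (R^[l] ω))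
    h1.measurable.aemeasurable hm.aestronglyMeasurable
  rw [h1.map_eq] at h2
  rw [h2]
  refine integral_congr_ae (Eventually.of_forall fun ω => ?_)
  change b (R^[k] ω) * b (R^[k + l] ω) = b (R^[k] ω) * b (R^[l] (R^[k] ω))
  rw [← Function.iterate_add_apply, add_comm l k]

theorem cor_sq {P : Measure Ω} {R : Ω → Ω} (hR : MeasurePreserving R P P) {b : Ω → ℝ}
    (hb : Measurable b) (σ : Measure (Set.Ico (0 : ℝ) 1))
    (hσ : ∀ n : ℕ, ((∫ ω, b ω * b (R^[n] ω) ∂P : ℝ) : ℂ) = ∫ x, ee ((x : ℝ) * n) ∂σ)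
    (h p p' : ℕ) :
    (∫ ω, b (R^[p * h] ω) * b (R^[p' * h] ω) ∂P) ^ 2 =
      ‖∫ x, ee ((x : ℝ) * (((p : ℝ) - p') * h)) ∂σ‖ ^ 2 := by
  have key : ∀ a c : ℕ, a ≤ c → (∫ ω, b (R^[a * h] ω) * b (R^[c * h] ω) ∂P) ^ 2 =
      ‖∫ x, ee ((x : ℝ) * (((c : ℝ) - a) * h)) ∂σ‖ ^ 2 := by
    intro a c hac
    obtain ⟨d, rfl⟩ := Nat.exists_eq_add_of_le hac
    have h1 := cor_shift hR hb (a * h) (d * h)
    rw [show (a + d) * h = a * h + d * h from add_mul a d h, h1]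
    have h2 := hσ (d * h)
    have h3 : ((a + d : ℕ) : ℝ) - a = d := by
      push_cast
      ring
    rw [h3]
    have h4 : ((d * h : ℕ) : ℝ) = (d : ℝ) * h := by push_cast; ring
    rw [h4] at h2
    rw [← h2, Complex.norm_real, Real.norm_eq_abs, sq_abs]
  rcases le_total p p' with hpp | hpp
  · rw [key p p' hpp]
    have h1 : ((p : ℝ) - p') * h = -(((p' : ℝ) - p) * h) := by ring
    rw [h1, norm_int_neg]
  · have h1 : (∫ ω, b (R^[p * h] ω) * b (R^[p' * h] ω) ∂P) =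
        ∫ ω, b (R^[p' * h] ω) * b (R^[p * h] ω) ∂P :=
      integral_congr_ae (Eventually.of_forall fun ω => mul_comm _ _)
    rw [h1, key p' p hpp]

end

/-- one term -/
theorem one_term (h1 : T_CSP) (h2 : T_AVG) {Ω : Type} [MeasurableSpace Ω] (P : Measure Ω)
    [IsProbabilityMeasure P] (b : Ω → ℝ) (hb : Measurable b) (hb2 : ∀ ω, |b ω| ≤ 2)
    (σ : Measure (Set.Ico (0 : ℝ) 1)) [IsFiniteMeasure σ] (h : ℕ) (hh : 0 < h) (t : ℝ)
    (ht : 0 < t) (hA : ∀ A : Finset ℝ, σ.real {x | (x : ℝ) ∈ A} ≤ t ^ 4 / 16)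
    (T₀ : Ω ≃ᵐ Ω)
    (hσ₀ : ∀ n : ℕ, ((∫ ω, b ω * b (T₀^[n] ω) ∂P : ℝ) : ℂ) = ∫ x, ee ((x : ℝ) * n) ∂σ) :
    ∃ m₀ : ℕ, ∀ m, m₀ ≤ m → ∀ (R : Ω ≃ᵐ Ω), MeasurePreserving R P P →
      (∀ n : ℕ, ((∫ ω, b ω * b (R^[n] ω) ∂P : ℝ) : ℂ) = ∫ x, ee ((x : ℝ) * n) ∂σ) →
      ∀ a : Ω → ℝ, Measurable a → (∀ ω, |a ω| ≤ 1) →
      (avgP 2 m fun p => |∫ ω, a ω * b (R^[p * h] ω) ∂P|) ≤ t := by
  have ht4 : 0 < t ^ 4 := by positivity
  obtain ⟨m₀, hm₀⟩ := h2 σ (t ^ 4 / 16) (t ^ 4 / 2) h hA hh (by positivity)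
  have hu : σ.real Set.univ ≤ 4 := by
    have e1 := hσ₀ 0
    have e2 : ∫ x, ee ((x : Set.Ico (0 : ℝ) 1) * ((0 : ℕ) : ℝ)) ∂σ = ((σ.real Set.univ : ℝ) : ℂ) := by
      have : ∀ x : Set.Ico (0 : ℝ) 1, ee ((x : ℝ) * ((0 : ℕ) : ℝ)) = 1 := by
        intro x
        rw [Nat.cast_zero, mul_zero, ee_zero]
      simp only [this]
      rw [integral_const]
      simp
    rw [e2] at e1
    have e3 : ∫ ω, b ω * b (T₀^[0] ω) ∂P = σ.real Set.univ := by exact_mod_cast e1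
    rw [← e3]
    have e4 : ∫ ω, b ω * b (T₀^[0] ω) ∂P ≤ ∫ _ω : Ω, (4 : ℝ) ∂P := by
      refine integral_mono (int_bdd (hb.mul hb) (C := 4) fun ω => ?_) (integrable_const _)
        fun ω => ?_
      · have := hb2 ω
        have h0 := abs_nonneg (b ω)
        rw [abs_mul]
        change |b ω| * |b ω| ≤ 4
        nlinarith
      · change b ω * b ω ≤ 4
        have h5 := abs_le.1 (hb2 ω)
        nlinarith [h5.1, h5.2]
    refine e4.trans (le_of_eq ?_)
    rw [integral_const]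
    simp
  refine ⟨m₀, fun m hm R hR hσ a ha ha1 => ?_⟩
  have c1 := h1 Ω P R a b h m hR ha hb ha1 hb2
  have c2 := hm₀ m hm
  have c3 : ∑ p ∈ Pset 2 m, ∑ p' ∈ Pset 2 m,
      (∫ ω, b (R^[p * h] ω) * b (R^[p' * h] ω) ∂P) ^ 2 =
      ∑ p ∈ Pset 2 m, ∑ p' ∈ Pset 2 m, ‖∫ x, ee ((x : ℝ) * (((p : ℝ) - p') * h)) ∂σ‖ ^ 2 :=
    Finset.sum_congr rfl fun p _ => Finset.sum_congr rfl fun p' _ =>
      cor_sq hR hb σ hσ h p p'
  rw [c3] at c1
  have c4 : (avgP 2 m fun p => |∫ ω, a ω * b (R^[p * h] ω) ∂P|) ^ 4 ≤ t ^ 4 := by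
    refine c1.trans (c2.trans ?_)
    nlinarith
  have c5 : 0 ≤ avgP 2 m fun p => |∫ ω, a ω * b (R^[p * h] ω) ∂P| := avgP_nn fun p => abs_nonneg _
  exact (pow_le_pow_iff_left₀ c5 ht.le (by norm_num)).1 c4

/-- the sets invariant under `T^[q]` -/
theorem inv_mul {Ω : Type} [MeasurableSpace Ω] {P : Measure Ω} {T : Ω ≃ᵐ Ω}
    (hT : MeasurePreserving T P P) {E : Set Ω} {q : ℕ}
    (hE : ∀ᵐ ω ∂P, T^[q] ω ∈ E ↔ ω ∈ E) (l : ℕ) : ∀ᵐ ω ∂P, T^[q * l] ω ∈ E ↔ ω ∈ E := by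
  induction l with
  | zero => exact Eventually.of_forall fun ω => by simp
  | succ l ih =>
    have h1 : ∀ᵐ ω ∂P, T^[q] (T^[q * l] ω) ∈ E ↔ T^[q * l] ω ∈ E :=
      (hT.iterate (q * l)).quasiMeasurePreserving.ae hE
    filter_upwards [h1, ih] with ω w1 w2
    rw [show q * (l + 1) = q + q * l by ring, Function.iterate_add_apply]
    exact w1.trans w2

/-- the estimate for one prime -/
theorem one_prime {Ω : Type} [MeasurableSpace Ω] (P : Measure Ω) [IsProbabilityMeasure P]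
    (T : Ω ≃ᵐ Ω) (hT : MeasurePreserving T P P) (s F : Ω → ℝ) (hs : Measurable s)
    (hs1 : ∀ ω, |s ω| ≤ 1) (hF : Measurable F) (hF1 : ∀ ω, |F ω| ≤ 1) (E : Set Ω)
    (hEm : MeasurableSet E) (q : ℕ) (hq : 0 < q) (hE : ∀ᵐ ω ∂P, T^[q] ω ∈ E ↔ ω ∈ E) (n : ℕ) :
    |∫ ω in E, s ω * s (T^[n] ω) ∂P - ∫ ω in E, F ω * F (T^[n] ω) ∂P| ≤
      |∫ ω, E.indicator s ω * (s (T^[n] ω) - F (T^[n] ω)) ∂P| +
      ∑ j ∈ range q, |∫ ω, F ω * E.indicator (fun _ => (1 : ℝ)) (T^[j] ω) *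
        (s (T.symm^[n] ω) - F (T.symm^[n] ω)) ∂P| := by
  have hTs : MeasurePreserving T.symm P P := hT.symm T
  have hTn := hT.iterate n
  have hTsn := hTs.iterate n
  have hinv : ∀ ω, T^[n] (T.symm^[n] ω) = ω := by
    intro ω
    have h1 : Function.RightInverse (T.symm : Ω → Ω)^[n] (T : Ω → Ω)^[n] :=
      Function.RightInverse.iterate (fun x => T.apply_symm_apply x) n
    exact h1 ω
  have mb : Measurable fun ω => s ω - F ω := hs.sub hF
  have bb : ∀ ω, |s ω - F ω| ≤ 2 := fun ω => by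
    have := abs_sub (s ω) (F ω)
    have h2 := hs1 ω
    have h3 := hF1 ω
    linarith
  have ms' : Measurable fun ω => s (T^[n] ω) := hs.comp hTn.measurable
  have mF' : Measurable fun ω => F (T^[n] ω) := hF.comp hTn.measurable
  have i1 : Integrable (fun ω => s ω * s (T^[n] ω)) P := int_bdd (hs.mul ms') (C := 1) fun ω => by
    rw [abs_mul]
    exact mul_le_one₀ (hs1 _) (abs_nonneg _) (hs1 _)
  have i2 : Integrable (fun ω => F ω * F (T^[n] ω)) P := int_bdd (hF.mul mF') (C := 1) fun ω => by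
    rw [abs_mul]
    exact mul_le_one₀ (hF1 _) (abs_nonneg _) (hF1 _)
  have i3 : Integrable (fun ω => s ω * (s (T^[n] ω) - F (T^[n] ω))) P :=
    int_bdd (hs.mul (ms'.sub mF')) (C := 2) fun ω => by
      rw [abs_mul]
      have h1 := hs1 ω
      have h2 := bb (T^[n] ω)
      have h3 := abs_nonneg (s ω)
      have h4 := abs_nonneg (s (T^[n] ω) - F (T^[n] ω))
      nlinarith
  have i4 : Integrable (fun ω => (s ω - F ω) * F (T^[n] ω)) P :=
    int_bdd (mb.mul mF') (C := 2) fun ω => by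
      rw [abs_mul]
      have h1 := hF1 (T^[n] ω)
      have h2 := bb ω
      have h3 := abs_nonneg (F (T^[n] ω))
      have h4 := abs_nonneg (s ω - F ω)
      nlinarith
  have e1 : ∫ ω in E, s ω * s (T^[n] ω) ∂P - ∫ ω in E, F ω * F (T^[n] ω) ∂P =
      ∫ ω in E, s ω * (s (T^[n] ω) - F (T^[n] ω)) ∂P + ∫ ω in E, (s ω - F ω) * F (T^[n] ω) ∂P := by
    rw [← integral_sub i1.integrableOn i2.integrableOn,
      ← integral_add i3.integrableOn i4.integrableOn]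
    refine integral_congr_ae (Eventually.of_forall fun ω => ?_)
    change s ω * s (T^[n] ω) - F ω * F (T^[n] ω) =
      s ω * (s (T^[n] ω) - F (T^[n] ω)) + (s ω - F ω) * F (T^[n] ω)
    ring
  have e2 : ∫ ω in E, s ω * (s (T^[n] ω) - F (T^[n] ω)) ∂P =
      ∫ ω, E.indicator s ω * (s (T^[n] ω) - F (T^[n] ω)) ∂P := by
    rw [← integral_indicator hEm]
    refine integral_congr_ae (Eventually.of_forall fun ω => ?_)
    by_cases hω : ω ∈ E
    · simp only [Set.indicator_of_mem hω]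
    · simp only [Set.indicator_of_notMem hω, zero_mul]
  obtain ⟨j, hj, l, hl⟩ : ∃ j, j < q ∧ ∃ l, n + j = q * l := by
    refine ⟨(q - n % q) % q, Nat.mod_lt _ hq, ?_⟩
    have h1 : (n + (q - n % q) % q) % q = 0 := by
      rw [Nat.add_mod, Nat.mod_mod, ← Nat.add_mod]
      have h2 : n % q ≤ q := (Nat.mod_lt n hq).le
      have h3 : n + (q - n % q) = q * (n / q) + q := by
        have := Nat.div_add_mod n q
        omega
      rw [h3]
      simp
    exact Nat.dvd_of_mod_eq_zero h1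
  have e3 : ∫ ω in E, (s ω - F ω) * F (T^[n] ω) ∂P =
      ∫ ω, F ω * E.indicator (fun _ => (1 : ℝ)) (T^[j] ω) *
        (s (T.symm^[n] ω) - F (T.symm^[n] ω)) ∂P := by
    rw [← integral_indicator hEm]
    have m1 : Measurable (E.indicator fun ω => (s ω - F ω) * F (T^[n] ω)) :=
      (mb.mul mF').indicator hEm
    have h2 := integral_map (μ := P) (φ := T.symm^[n])
      (f := E.indicator fun ω => (s ω - F ω) * F (T^[n] ω))
      hTsn.measurable.aemeasurable m1.aestronglyMeasurable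
    rw [hTsn.map_eq] at h2
    rw [h2]
    have h3 : ∀ᵐ ω ∂P, T^[q * l] (T.symm^[n] ω) ∈ E ↔ T.symm^[n] ω ∈ E :=
      hTsn.quasiMeasurePreserving.ae (inv_mul hT hE l)
    refine integral_congr_ae ?_
    filter_upwards [h3] with ω w
    have h4 : T^[q * l] (T.symm^[n] ω) = T^[j] ω := by
      rw [← hl, add_comm n j, Function.iterate_add_apply, hinv]
    rw [h4] at w
    by_cases hω : T.symm^[n] ω ∈ E
    · rw [Set.indicator_of_mem hω, Set.indicator_of_mem (w.2 hω), hinv]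
      ring
    · rw [Set.indicator_of_notMem hω, Set.indicator_of_notMem (fun h5 => hω (w.1 h5))]
      ring
  rw [e1, e2, e3]
  refine (abs_add_le _ _).trans (add_le_add le_rfl ?_)
  exact Finset.single_le_sum (f := fun j => |∫ ω, F ω * E.indicator (fun _ => (1 : ℝ)) (T^[j] ω) *
    (s (T.symm^[n] ω) - F (T.symm^[n] ω)) ∂P|) (fun i _ => abs_nonneg _) (Finset.mem_range.2 hj)

theorem pf_ERR (h1 : T_CSP) (h2 : T_AVG) : T_ERR := by
  intro Ω _ P _ T s F E q h t hT hs hs1 hEm hq hE hh ht hA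
  have hF := hA.meas
  have hF1 := hA.bd
  obtain ⟨σ, hfin, hσ, hat⟩ := hA.atm
  have hb : Measurable fun ω => s ω - F ω := hs.sub hF
  have hb2 : ∀ ω, |s ω - F ω| ≤ 2 := fun ω => by
    have := abs_sub (s ω) (F ω)
    have h2 := hs1 ω
    have h3 := hF1 ω
    linarith
  have hTs : MeasurePreserving T.symm P P := hT.symm T
  have hσs : ∀ n : ℕ, ((∫ ω, (s ω - F ω) * (s (T.symm^[n] ω) - F (T.symm^[n] ω)) ∂P : ℝ) : ℂ) =
      ∫ x, ee ((x : ℝ) * n) ∂σ := by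
    intro n
    rw [← hσ n]
    congr 1
    have hTn := hT.iterate n
    have hTsn := hTs.iterate n
    have m1 : Measurable fun ω => (s ω - F ω) * (s (T.symm^[n] ω) - F (T.symm^[n] ω)) :=
      hb.mul (hb.comp hTsn.measurable)
    have h2 := integral_map (μ := P) (φ := T^[n])
      (f := fun ω => (s ω - F ω) * (s (T.symm^[n] ω) - F (T.symm^[n] ω)))
      hTn.measurable.aemeasurable m1.aestronglyMeasurable
    rw [hTn.map_eq] at h2
    rw [h2]
    refine integral_congr_ae (Eventually.of_forall fun ω => ?_)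
    have h3 : T.symm^[n] (T^[n] ω) = ω := by
      have h1 : Function.LeftInverse (T.symm : Ω → Ω)^[n] (T : Ω → Ω)^[n] :=
        Function.LeftInverse.iterate (fun x => T.symm_apply_apply x) n
      exact h1 ω
    change (s (T^[n] ω) - F (T^[n] ω)) * (s (T.symm^[n] (T^[n] ω)) - F (T.symm^[n] (T^[n] ω))) =
      (s ω - F ω) * (s (T^[n] ω) - F (T^[n] ω))
    rw [h3, mul_comm]
  obtain ⟨m₀, hm₀⟩ := one_term h1 h2 P (fun ω => s ω - F ω) hb hb2 σ h hh t ht hat T hσ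
  refine ⟨m₀, fun m hm => ?_⟩
  have c1 := hm₀ m hm T hT hσ (E.indicator s) (hs.indicator hEm) (fun ω => by
    by_cases hω : ω ∈ E
    · rw [Set.indicator_of_mem hω]
      exact hs1 ω
    · rw [Set.indicator_of_notMem hω, abs_zero]
      exact zero_le_one)
  have c2 : ∀ j ∈ range q, (avgP 2 m fun p => |∫ ω, F ω * E.indicator (fun _ => (1 : ℝ))
      (T^[j] ω) * (s (T.symm^[p * h] ω) - F (T.symm^[p * h] ω)) ∂P|) ≤ t := by
    intro j _
    have m1 : Measurable fun ω => E.indicator (fun _ => (1 : ℝ)) (T^[j] ω) :=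
      (measurable_const.indicator hEm).comp (hT.iterate j).measurable
    refine hm₀ m hm T.symm hTs hσs (fun ω => F ω * E.indicator (fun _ => (1 : ℝ)) (T^[j] ω))
      (hF.mul m1) fun ω => ?_
    rw [abs_mul]
    refine mul_le_one₀ (hF1 ω) (abs_nonneg _) ?_
    by_cases hω : T^[j] ω ∈ E
    · rw [Set.indicator_of_mem hω, abs_one]
    · rw [Set.indicator_of_notMem hω, abs_zero]
      exact zero_le_one
  have c3 : (avgP 2 m fun p =>
      |∫ ω in E, s ω * s (T^[p * h] ω) ∂P - ∫ ω in E, F ω * F (T^[p * h] ω) ∂P|) ≤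
      avgP 2 m (fun p => |∫ ω, E.indicator s ω * (s (T^[p * h] ω) - F (T^[p * h] ω)) ∂P| +
      ∑ j ∈ range q, |∫ ω, F ω * E.indicator (fun _ => (1 : ℝ)) (T^[j] ω) *
        (s (T.symm^[p * h] ω) - F (T.symm^[p * h] ω)) ∂P|) :=
    avgP_mono fun p _ => one_prime P T hT s F hs hs1 hF hF1 E hEm q hq hE (p * h)
  refine c3.trans ?_
  rw [avgP_add, avgP_sum]
  have c4 := Finset.sum_le_sum c2
  rw [Finset.sum_const, card_range, nsmul_eq_mul] at c4
  have c5 : (0 : ℝ) ≤ q := Nat.cast_nonneg q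
  have c6 : 0 ≤ (q : ℝ) * t := by positivity
  calc _ ≤ t + (q : ℝ) * t := add_le_add c1 c4
    _ ≤ 4 * ((q : ℝ) + 2) * t := by nlinarith

end Pool.Agent.H66.X
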